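import Pool.Agent.T2H22.AA.Fin
import Pool.Agent.T2H22.AA.SecM
import Pool.Agent.T2H22.AA.UpW
import Pool.Agent.T2H22.AD.Gen

/-!
# Goldbach's problem for almost all integers with many solutions in a bounded interval

The system of the problem is `φ (n - x) + 1 = n - x`, `φ (n + x) + 1 = n + x`. For every `r` there is `K` such that for every
set `A` of at least `K` integers and for almost all integers `n` without a local obstruction there are many `y` for which at
least `r` of the integers `y + a`, `a ∈ A`, are solutions for `n`. In particular, for every `r` there is `C` such that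
for almost all integers `n` there are `r` solutions in an interval of length `C`.
-/

set_option autoImplicit false

namespace Pool.Agent.Results.MP_967f73_nt.BoundedGapsAlmostAll

open Finset

/-- `x` is a solution of the system for `n` -/
def Solution (n x : ℕ) : Prop :=
  x < n ∧ Nat.totient (n - x) + 1 = n - x ∧ Nat.totient (n + x) + 1 = n + x

open Classical in
/-- the number of the solutions `x` in `[y, y + C]` -/
noncomputable def solutionsIn (C n y : ℕ) : ℕ :=
  ((Icc y (y + C)).filter (fun x => Solution n x)).card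

open Classical in
/-- the number of the `y ∈ [1, n]` such that the interval `[y, y + C]` contains at least `r` solutions -/
noncomputable def clusters (r C n : ℕ) : ℕ :=
  ((Icc 1 n).filter (fun y => r ≤ solutionsIn C n y)).card

open Classical in
/-- the number of the `y ∈ [1, n]` such that at least `r` of the integers `y + a`, `a ∈ A`, are solutions -/
noncomputable def translates (r : ℕ) (A : Finset ℕ) (n : ℕ) : ℕ :=
  ((Icc 1 n).filter (fun y => r ≤ (A.filter (fun a => Solution n (y + a))).card)).card

/-- no local obstruction: for every prime `p` there is an integer `y` such that none of the integers `n - (y + a)` and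
`n + (y + a)`, `a ∈ A`, is divisible by `p` -/
def LocallyPossible (A : Finset ℕ) (n : ℕ) : Prop :=
  ∀ p : ℕ, p.Prime → ∃ y : ℤ, ∀ a ∈ A, ¬ (p : ℤ) ∣ n - (y + a) ∧ ¬ (p : ℤ) ∣ n + (y + a)

open Classical in
/-- **Clusters of Goldbach representations for almost all integers.** Let `r` be given. (1) For some `K` and all sets `A`
of at least `K` nonnegative integers there is `D` such that for almost all `n` without a local obstruction at least
`n / (log n) ^ D` integers `1 ≤ y ≤ n` are such that at least `r` of the integers `y + a`, `a ∈ A`, are solutions of the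
system. (2) There are `C` and `D` such that for almost all `n` at least `n / (log n) ^ D` intervals `[y, y + C]` with
`1 ≤ y ≤ n` contain at least `r` solutions of the system. In particular for almost all `n` the number `2 n` is a sum of
two primes in `r` ways such that the smaller primes differ by at most `C`. -/
theorem result (r : ℕ) :
    (∃ K : ℕ, ∀ A : Finset ℕ, K ≤ A.card → ∃ D : ℕ, ∀ ε : ℝ, 0 < ε → ∃ X₀ : ℕ, ∀ X : ℕ, X₀ ≤ X →
      (((Icc 1 X).filter (fun n : ℕ => LocallyPossible A n ∧
        (translates r A n : ℝ) < n / Real.log n ^ D)).card : ℝ) ≤ ε * X) ∧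
    ∃ (C D : ℕ), ∀ ε : ℝ, 0 < ε → ∃ X₀ : ℕ, ∀ X : ℕ, X₀ ≤ X →
      (((Icc 1 X).filter (fun n : ℕ => (clusters r C n : ℝ) < n / Real.log n ^ D)).card : ℝ) ≤ ε * X := by
  have hphi : ∀ a : ℕ, a.Prime → Nat.totient a + 1 = a := by
    intro a ha
    rw [Nat.totient_prime ha]
    have := ha.pos
    omega
  have hSec := Pool.Agent.T2H22.AA.secM Pool.Agent.T2H22.AA.upW
  constructor
  · obtain ⟨K, h⟩ := Pool.Agent.T2H22.AD.all_A hSec r
    refine ⟨K, fun A hA => ?_⟩
    obtain ⟨D, h1⟩ := h A hA
    refine ⟨D, fun ε hε => ?_⟩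
    obtain ⟨X₀, h2⟩ := h1 ε hε
    refine ⟨X₀, fun X hX => le_trans ?_ (h2 X hX)⟩
    apply Nat.cast_le.2
    apply card_le_card
    intro n hn
    rw [mem_filter] at hn ⊢
    refine ⟨hn.1, hn.2.1, lt_of_le_of_lt ?_ hn.2.2⟩
    apply Nat.cast_le.2
    unfold Pool.Agent.T2H22.AD.cntA translates
    apply card_le_card
    intro y hy
    rw [mem_filter] at hy ⊢
    refine ⟨hy.1, hy.2.trans (card_le_card ?_)⟩
    intro a ha
    rw [mem_filter] at ha ⊢
    obtain ⟨e1, e2, e3, e4⟩ := ha
    exact ⟨e1, e2, hphi _ e3, hphi _ e4⟩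
  · obtain ⟨C, D, h⟩ := Pool.Agent.T2H22.AA.main_of hSec r
    refine ⟨C, D, fun ε hε => ?_⟩
    obtain ⟨X₀, h1⟩ := h ε hε
    refine ⟨X₀, fun X hX => le_trans ?_ (h1 X hX)⟩
    apply Nat.cast_le.2
    apply card_le_card
    intro n hn
    rw [mem_filter] at hn ⊢
    refine ⟨hn.1, lt_of_le_of_lt ?_ hn.2⟩
    apply Nat.cast_le.2
    unfold Pool.Agent.T2H22.BG.ny clusters
    apply card_le_card
    intro y hy
    rw [mem_filter] at hy ⊢
    refine ⟨hy.1, ?_⟩
    have h4 : Pool.Agent.T2H22.BG.ns C n y ≤ solutionsIn C n y := by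
      unfold Pool.Agent.T2H22.BG.ns solutionsIn
      apply card_le_card
      intro x hx
      rw [mem_filter] at hx ⊢
      obtain ⟨e1, e2, e3, e4⟩ := hx
      exact ⟨e1, e2, hphi _ e3, hphi _ e4⟩
    omega

end Pool.Agent.Results.MP_967f73_nt.BoundedGapsAlmostAll
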