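import Pool.Agent.T2H22.AA.Fin
import Pool.Agent.T2H22.AA.SecM
import Pool.Agent.T2H22.AA.UpW
import Pool.Agent.T2H22.AD.Gen

/-!
# Common solutions of the systems for neighbouring integers

The system of the problem for `n` is `φ (n - x) + 1 = n - x`, `φ (n + x) + 1 = n + x`. For every `r` there is `K` such that
for every set `A` of at least `K` integers and for almost all integers `n` without a local obstruction there are many `x`
which are solutions for at least `r` of the integers `n + a`, `a ∈ A`, at once. In particular, for every `r` there is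
`C` such that for almost all `n` some `x` is a solution for `r` of the integers `n + 1, ..., n + C`.
-/

set_option autoImplicit false

namespace Pool.Agent.Results.MP_967f73_nt.CommonSolutions

open Finset

/-- `x` is a solution of the system for `n` -/
def Solution (n x : ℕ) : Prop :=
  x < n ∧ Nat.totient (n - x) + 1 = n - x ∧ Nat.totient (n + x) + 1 = n + x

open Classical in
/-- the number of the `x ∈ [1, n]` which are solutions for at least `r` of the integers `n + a`, `a ∈ A` -/
noncomputable def common (r : ℕ) (A : Finset ℕ) (n : ℕ) : ℕ :=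
  ((Icc 1 n).filter (fun x => r ≤ (A.filter (fun a => Solution (n + a) x)).card)).card

/-- no local obstruction: for every prime `p` there is an integer `x` such that none of the integers `n + a - x` and
`n + a + x`, `a ∈ A`, is divisible by `p` -/
def LocallyPossible (A : Finset ℕ) (n : ℕ) : Prop :=
  ∀ p : ℕ, p.Prime → ∃ x : ℤ, ∀ a ∈ A, ¬ (p : ℤ) ∣ (n + a) - x ∧ ¬ (p : ℤ) ∣ (n + a) + x

open Classical in
/-- **Common solutions of Goldbach's problem for neighbouring integers.** Let `r` be given. (1) For some `K` and all sets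
`A` of at least `K` nonnegative integers there is `D` such that for almost all `n` without a local obstruction at least
`n / (log n) ^ D` integers `1 ≤ x ≤ n` are solutions of the system for at least `r` of the integers `n + a`, `a ∈ A`.
(2) There are `C` and `D` such that for almost all `n` at least `n / (log n) ^ D` integers `1 ≤ x ≤ n` are solutions
of the system for at least `r` of the integers `n + 1, ..., n + C`. -/
theorem result (r : ℕ) :
    (∃ K : ℕ, ∀ A : Finset ℕ, K ≤ A.card → ∃ D : ℕ, ∀ ε : ℝ, 0 < ε → ∃ X₀ : ℕ, ∀ X : ℕ, X₀ ≤ X →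
      (((Icc 1 X).filter (fun n : ℕ => LocallyPossible A n ∧
        (common r A n : ℝ) < n / Real.log n ^ D)).card : ℝ) ≤ ε * X) ∧
    ∃ (C D : ℕ), ∀ ε : ℝ, 0 < ε → ∃ X₀ : ℕ, ∀ X : ℕ, X₀ ≤ X →
      (((Icc 1 X).filter (fun n : ℕ => (common r (Icc 1 C) n : ℝ) < n / Real.log n ^ D)).card : ℝ) ≤
        ε * X := by
  have hphi : ∀ a : ℕ, a.Prime → Nat.totient a + 1 = a := by
    intro a ha
    rw [Nat.totient_prime ha]
    have := ha.pos
    omega
  have hSec := Pool.Agent.T2H22.AA.secM Pool.Agent.T2H22.AA.upW
  constructor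
  · obtain ⟨K, h⟩ := Pool.Agent.T2H22.AD.all_D hSec r
    refine ⟨K, fun A hA => ?_⟩
    obtain ⟨D, h1⟩ := h A hA
    refine ⟨D, fun ε hε => ?_⟩
    obtain ⟨X₀, h2⟩ := h1 ε hε
    refine ⟨X₀, fun X hX => le_trans ?_ (h2 X hX)⟩
    apply Nat.cast_le.2
    apply card_le_card
    intro n hn
    rw [mem_filter] at hn ⊢
    refine ⟨hn.1, hn.2.1, lt_of_le_of_lt ?_ hn.2.2⟩
    apply Nat.cast_le.2
    unfold Pool.Agent.T2H22.AD.cntD common
    apply card_le_card
    intro y hy
    rw [mem_filter] at hy ⊢
    refine ⟨hy.1, hy.2.trans (card_le_card ?_)⟩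
    intro a ha
    rw [mem_filter] at ha ⊢
    obtain ⟨e1, e2, e3, e4⟩ := ha
    exact ⟨e1, e2, hphi _ e3, hphi _ e4⟩
  · obtain ⟨C, D, h⟩ := Pool.Agent.T2H22.AD.main_D hSec (r + 1) (by omega)
    refine ⟨C, D, fun ε hε => ?_⟩
    obtain ⟨X₀, h1⟩ := h ε hε
    refine ⟨X₀, fun X hX => le_trans ?_ (h1 X hX)⟩
    apply Nat.cast_le.2
    apply card_le_card
    intro n hn
    rw [mem_filter] at hn ⊢
    refine ⟨hn.1, lt_of_le_of_lt ?_ hn.2⟩
    apply Nat.cast_le.2
    unfold Pool.Agent.T2H22.AD.cm common
    apply card_le_card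
    intro x hx
    rw [mem_filter] at hx ⊢
    refine ⟨hx.1, ?_⟩
    have h3 : ((Icc (n + 1) (n + C)).filter (fun m => Pool.Agent.T2H22.AD.Sol m x)).card ≤
        ((Icc 1 C).filter (fun a => Solution (n + a) x)).card := by
      apply card_le_card_of_injOn (fun m => m - n)
      · intro m hm
        rw [mem_coe, mem_filter, mem_Icc] at hm
        obtain ⟨⟨e0, e1⟩, e2, e3, e4⟩ := hm
        rw [mem_coe, mem_filter, mem_Icc]
        simp only
        refine ⟨⟨by omega, by omega⟩, ?_⟩
        rw [show n + (m - n) = m by omega]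
        exact ⟨e2, hphi _ e3, hphi _ e4⟩
      · intro m hm m' hm' he
        rw [mem_coe, mem_filter, mem_Icc] at hm hm'
        simp only at he
        omega
    omega

end Pool.Agent.Results.MP_967f73_nt.CommonSolutions
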