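import Pool.Agent.T2H22.AR.Syn
import Pool.Agent.T2H22.AA.UpW

/-!
# Goldbach's problem with consecutive primes and with primes of prescribed indices, for almost all `n`

Let `p 1 = 2, p 2 = 3, …` be the primes. A rule selects from every run `p (i + 1), …, p (i + K)` of `K` consecutive primes
at least `k` of them. For almost all `n` there are many runs of `r` consecutive primes, of bounded diameter, such that for
every prime `q` of the run `x = q - n` is a solution of the system for `n`, and `n - x = 2 n - q` is a selected prime. In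
particular, for arbitrary sets `𝒳`, `𝒴` of indices which meet all intervals of some fixed length, almost all `n` have
solutions `x` with `n - x = p u`, `u ∈ 𝒳`, and `n + x = p v`, `v ∈ 𝒴`.
-/

set_option autoImplicit false

namespace Pool.Agent.Results.MP_967f73_nt.ConsecutivePrimes

open Finset

/-- `x` is a solution of the system for `n` -/
def Solution (n x : ℕ) : Prop :=
  x < n ∧ Nat.totient (n - x) + 1 = n - x ∧ Nat.totient (n + x) + 1 = n + x

/-- the `x`-th prime, `p 1 = 2` -/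
noncomputable def p (x : ℕ) : ℕ := Nat.nth Nat.Prime (x - 1)

/-- the primes `p (i' + 1), …, p (i' + r)` have diameter at most `C`, each of them is `n + x` for a positive solution `x` of
the system for `n`, and all the primes `n - x` are selected primes of one run of `K` primes of diameter at most `C` -/
def GoodRun (σ : ℕ → Finset ℕ) (K r C n i' : ℕ) : Prop :=
  p (i' + r) ≤ p (i' + 1) + C ∧ ∃ i : ℕ, p (i + K) ≤ p (i + 1) + C ∧
    ∀ j' : ℕ, 1 ≤ j' → j' ≤ r → ∃ x : ℕ, 0 < x ∧ Solution n x ∧ p (i' + j') = n + x ∧ ∃ j ∈ σ i, p (i + j) = n - x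

open Classical in
/-- the number of the good runs -/
noncomputable def goodRuns (σ : ℕ → Finset ℕ) (K r C n : ℕ) : ℕ :=
  ((range (2 * n)).filter (fun i' => GoodRun σ K r C n i')).card

open Classical in
/-- the number of the `y ∈ [1, n]` such that at least `r` of the `x ∈ [y, y + C]` are solutions for `n` with `n - x = p u`,
`u ∈ 𝒳`, and `n + x = p v`, `v ∈ 𝒴` -/
noncomputable def windows (𝒳 𝒴 : Set ℕ) (r C n : ℕ) : ℕ :=
  ((Icc 1 n).filter (fun y => r ≤ ((Icc y (y + C)).filter (fun x => Solution n x ∧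
    (∃ u ∈ 𝒳, 1 ≤ u ∧ n - x = p u) ∧ ∃ v ∈ 𝒴, 1 ≤ v ∧ n + x = p v)).card)).card

theorem sol_of {n x q q' : ℕ} (hq : q.Prime) (hq' : q'.Prime) (h1 : q + x = n) (h2 : n + x = q') : Solution n x := by
  have h0 := hq.pos
  refine ⟨by omega, ?_, ?_⟩
  · rw [show n - x = q by omega, Nat.totient_prime hq]
    omega
  · rw [h2, Nat.totient_prime hq']
    have := hq'.pos
    omega

open Classical in
/-- **Consecutive primes and prescribed indices in Goldbach's problem, for almost all `n`.** (1) For every `r ≥ 1` there is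
`k` such that for every `K ≥ k` there are `C` and `D` such that for every rule `σ` which selects at least `k` of the `K`
indices `i + 1, …, i + K`, for each `i`, the following holds for almost all `n`, uniformly in `σ`. At least
`n / (log n) ^ D` runs `p (i' + 1), …, p (i' + r)` of consecutive primes have diameter at most `C`, all their elements are
`n + x` with a solution `x > 0`, and the primes `n - x` are selected primes of one run of `K` consecutive primes of
diameter at most `C`. (2) For all `r, m ≥ 1` there are `C` and `D` such that for all sets `𝒳`, `𝒴` of indices which meet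
every block of `m` consecutive indices, for almost all `n`, uniformly in `𝒳` and `𝒴`, at least `n / (log n) ^ D` intervals
`[y, y + C]`, `1 ≤ y ≤ n`, contain at least `r` solutions `x` with `n - x = p u`, `u ∈ 𝒳`, and `n + x = p v`, `v ∈ 𝒴`. -/
theorem result (r : ℕ) (hr : 1 ≤ r) :
    (∃ k : ℕ, ∀ K : ℕ, k ≤ K → ∃ C D : ℕ, ∀ ε : ℝ, 0 < ε → ∃ X₀ : ℕ,
      ∀ σ : ℕ → Finset ℕ, (∀ i, σ i ⊆ Icc 1 K ∧ k ≤ (σ i).card) → ∀ X : ℕ, X₀ ≤ X →
      (((Icc 1 X).filter (fun n : ℕ => (goodRuns σ K r C n : ℝ) < n / Real.log n ^ D)).card : ℝ) ≤ ε * X) ∧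
    ∀ m : ℕ, 1 ≤ m → ∃ C D : ℕ, ∀ ε : ℝ, 0 < ε → ∃ X₀ : ℕ,
      ∀ 𝒳 𝒴 : Set ℕ, (∀ i : ℕ, ∃ x ∈ 𝒳, i < x ∧ x ≤ i + m) → (∀ i : ℕ, ∃ x ∈ 𝒴, i < x ∧ x ≤ i + m) →
      ∀ X : ℕ, X₀ ≤ X →
      (((Icc 1 X).filter (fun n : ℕ => (windows 𝒳 𝒴 r C n : ℝ) < n / Real.log n ^ D)).card : ℝ) ≤ ε * X := by
  have hSec := Pool.Agent.T2H22.AA.secM Pool.Agent.T2H22.AA.upW
  constructor
  · obtain ⟨k, hk, hmain⟩ := Pool.Agent.T2H22.AR.main_RR hSec r hr
    refine ⟨k, fun K hK => ?_⟩
    obtain ⟨C, D, h⟩ := hmain K hK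
    refine ⟨C, D, fun ε hε => ?_⟩
    obtain ⟨X₀, h0⟩ := h ε hε
    refine ⟨X₀, fun σ hσ X hX => le_trans ?_ (h0 σ hσ X hX)⟩
    apply Nat.cast_le.2
    apply card_le_card
    intro n hn
    rw [mem_filter] at hn ⊢
    refine ⟨hn.1, lt_of_le_of_lt ?_ hn.2⟩
    apply Nat.cast_le.2
    unfold Pool.Agent.T2H22.AR.good2 goodRuns
    apply card_le_card
    intro i' hi
    rw [mem_filter] at hi ⊢
    refine ⟨hi.1, hi.2.1, ?_⟩
    obtain ⟨_, i, h2, h3⟩ := hi.2
    refine ⟨i, h2, fun j' h4 h5 => ?_⟩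
    obtain ⟨j, hj, h6, h7⟩ := h3 j' h4 h5
    have hp1 := Pool.Agent.T2H22.AQ.pr_prime (i + j)
    have hp2 := Pool.Agent.T2H22.AQ.pr_prime (i' + j')
    refine ⟨Pool.Agent.T2H22.AQ.pr (i' + j') - n, by omega, sol_of hp1 hp2 (by omega) (by omega), ?_, j, hj, ?_⟩
    · show Pool.Agent.T2H22.AQ.pr (i' + j') = _
      omega
    · show Pool.Agent.T2H22.AQ.pr (i + j) = _
      omega
  · intro m hm
    obtain ⟨C, D, h⟩ := Pool.Agent.T2H22.AR.main_SS hSec r m hr hm
    refine ⟨C, D, fun ε hε => ?_⟩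
    obtain ⟨X₀, h0⟩ := h ε hε
    refine ⟨X₀, fun 𝒳 𝒴 h𝒳 h𝒴 X hX => le_trans ?_ (h0 𝒳 𝒴 h𝒳 h𝒴 X hX)⟩
    apply Nat.cast_le.2
    apply card_le_card
    intro n hn
    rw [mem_filter] at hn ⊢
    refine ⟨hn.1, lt_of_le_of_lt ?_ hn.2⟩
    apply Nat.cast_le.2
    unfold Pool.Agent.T2H22.AR.cl windows
    apply card_le_card
    intro y hy
    rw [mem_filter] at hy ⊢
    refine ⟨hy.1, hy.2.trans (card_le_card ?_)⟩
    intro x hx
    rw [mem_filter] at hx ⊢
    obtain ⟨hx1, u, hu, v, hv, hu1, hv1, h1, h2⟩ := hx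
    have hp1 := Pool.Agent.T2H22.AQ.pr_prime u
    have hp2 := Pool.Agent.T2H22.AQ.pr_prime v
    refine ⟨hx1, sol_of hp1 hp2 h1 h2, ⟨u, hu, hu1, ?_⟩, v, hv, hv1, h2⟩
    show _ = Pool.Agent.T2H22.AQ.pr u
    omega

end Pool.Agent.Results.MP_967f73_nt.ConsecutivePrimes
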