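import Pool.Agent.T2H22.LG.T
import Pool.Agent.T2H22.LG.J
import Pool.Agent.T2H22.LG.U

set_option autoImplicit false

/-!
# The Goldbach problem with parities of the number of prime factors

Every sufficiently large integer is a sum of two positive integers whose numbers of prime factors,
counted with multiplicity, have any two prescribed parities; in particular it is a sum of two
integers with an odd number of prime factors each.
-/

namespace Pool.Agent.Results.MP_967f73_nt.LiouvilleGoldbach

open Pool.Agent.T2H22.LG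

lemma lam_eq_one {n : ℕ} (h : lam n = 1) : ArithmeticFunction.cardFactors n ≡ 0 [MOD 2] := by
  unfold lam at h
  rcases Nat.even_or_odd (ArithmeticFunction.cardFactors n) with h1 | h1
  · exact (Nat.even_iff.mp h1)
  · rw [h1.neg_one_pow] at h; norm_num at h

lemma lam_eq_neg {n : ℕ} (h : lam n = -1) : ArithmeticFunction.cardFactors n ≡ 1 [MOD 2] := by
  unfold lam at h
  rcases Nat.even_or_odd (ArithmeticFunction.cardFactors n) with h1 | h1
  · rw [h1.neg_one_pow] at h; norm_num at h
  · exact (Nat.odd_iff.mp h1)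

/-- For every sufficiently large `N` and all parities `u`, `v` there are positive `a + b = N` such
that the numbers of prime factors of `a` and `b`, with multiplicity, are congruent to `u` and `v`
modulo two. -/
theorem result : ∃ N₀ : ℕ, ∀ N : ℕ, N₀ ≤ N → ∀ u v : ℕ, ∃ a b : ℕ,
    0 < a ∧ 0 < b ∧ a + b = N ∧
      ArithmeticFunction.cardFactors a ≡ u [MOD 2] ∧
      ArithmeticFunction.cardFactors b ≡ v [MOD 2] := by
  obtain ⟨P0, hP0⟩ := Filter.eventually_atTop.mp EX.prime_case
  obtain ⟨N0, hN0⟩ := reduction P0 (fun p hp h => hP0 p h hp) fixed_prime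
  refine ⟨max N0 11, fun N hN u v => ?_⟩
  have hB := hN0 N (le_trans (le_max_left _ _) hN)
  have hM : Mix N := mix_all N (lt_of_lt_of_le (by norm_num) (le_trans (le_max_right N0 11) hN))
  have hu : u ≡ 0 [MOD 2] ∨ u ≡ 1 [MOD 2] := by
    rcases Nat.mod_two_eq_zero_or_one u with h | h
    · left; exact h
    · right; exact h
  have hv : v ≡ 0 [MOD 2] ∨ v ≡ 1 [MOD 2] := by
    rcases Nat.mod_two_eq_zero_or_one v with h | h
    · left; exact h
    · right; exact h
  obtain ⟨a, b, ha, hb, hab, hne⟩ := hM
  rcases hu with hu | hu <;> rcases hv with hv | hv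
  · obtain ⟨a, b, ha, hb, hab, h1, h2⟩ := hB.1
    exact ⟨a, b, ha, hb, hab, (lam_eq_one h1).trans hu.symm, (lam_eq_one h2).trans hv.symm⟩
  · rcases lam_or a with h1 | h1 <;> rcases lam_or b with h2 | h2
    · exact absurd (h1.trans h2.symm) hne
    · exact ⟨a, b, ha, hb, hab, (lam_eq_one h1).trans hu.symm, (lam_eq_neg h2).trans hv.symm⟩
    · exact ⟨b, a, hb, ha, by omega, (lam_eq_one h2).trans hu.symm, (lam_eq_neg h1).trans hv.symm⟩
    · exact absurd (h1.trans h2.symm) hne
  · rcases lam_or a with h1 | h1 <;> rcases lam_or b with h2 | h2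
    · exact absurd (h1.trans h2.symm) hne
    · exact ⟨b, a, hb, ha, by omega, (lam_eq_neg h2).trans hu.symm, (lam_eq_one h1).trans hv.symm⟩
    · exact ⟨a, b, ha, hb, hab, (lam_eq_neg h1).trans hu.symm, (lam_eq_one h2).trans hv.symm⟩
    · exact absurd (h1.trans h2.symm) hne
  · obtain ⟨a, b, ha, hb, hab, h1, h2⟩ := hB.2
    exact ⟨a, b, ha, hb, hab, (lam_eq_neg h1).trans hu.symm, (lam_eq_neg h2).trans hv.symm⟩

end Pool.Agent.Results.MP_967f73_nt.LiouvilleGoldbach
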